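import Pool.Agent.R441.MD.Final

/-!
For every `n ≥ 4` there are infinitely many `n`-tuples of pairwise distinct integers `> 1` such
that both the tuple and its shift by `1` are `n`-multiplicatively dependent.
-/

namespace Pool.Agent.Results.MP_db38ce_nt.AllNFromFour

open Pool.Agent.R441.MD

theorem result : ∀ n : ℕ, 4 ≤ n →
    {a : Fin n → ℤ | Function.Injective a ∧ (∀ i, 1 < a i) ∧ KMulDep n a ∧
      KMulDep n (fun i => a i + 1)}.Infinite :=
  fun n hn => main n hn

end Pool.Agent.Results.MP_db38ce_nt.AllNFromFour
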